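import Pool.Agent.Lib.MP_571595_lc.MORT.Base

/-!
# Mortality of 2x2 integer matrices: module DEC (decoding)
-/

set_option autoImplicit false

namespace Pool.Agent.Lib.MP_571595_lc.MORT.H82

variable {J Q R : Type} [Fintype J]

theorem ell_neg (z : J → ℤ) (i : J) : ell (-z) i = -ell z i := by
  simp only [ell, Pi.neg_apply, Finset.sum_neg_distrib]
  ring

omit [Fintype J] in
theorem toZ_inj {n m : J → ℕ} (h : toZ n = toZ m) : n = m := by
  funext j
  have h1 := congrFun h j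
  simp only [toZ] at h1
  exact_mod_cast h1

variable {C : CM J Q R} (D : Data C)

theorem rho_zero : D.rho 0 = 1 := by
  have h := D.rho_add 0 0
  rw [add_zero] at h
  exact left_eq_mul.1 h

theorem rho_neg (z : J → ℤ) : D.rho (-z) = (D.rho z)⁻¹ := by
  have h := D.rho_add z (-z)
  rw [add_neg_cancel, rho_zero] at h
  exact eq_inv_of_mul_eq_one_right h.symm

theorem rho_sub (z w : J → ℤ) : D.rho (z - w) = D.rho z * (D.rho w)⁻¹ := by
  rw [sub_eq_add_neg, D.rho_add, rho_neg]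

/-- Lemma L in levels of type U -/
theorem levU [Nonempty J] (h2 : LevelStatement) (a b : St Q R) (hab : a ≠ b) (x x' : ℚ)
    (hx : x ≠ 0) (hx' : x' ≠ 0) (n m : J → ℕ) (O A : J → ℤ) (e e' : ℤ)
    (he : e = D.es ∨ e = D.ek a) (he' : e' = D.ep ∨ e' = D.ek b)
    (hv : ∀ i, D.v i x = -e + D.v i (D.rho (toZ n)))
    (hv' : ∀ i, D.v i x' = -e' - D.v i (D.rho (toZ m)))
    (h : (D.rho O : ℚ) * (-D.p + x) = D.rho A * (-D.s + x')) :
    e = D.es ∧ e' = D.ep ∧ A = O + toZ n ∧ n = m :=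
  h2 D.pr D.prime D.M D.es D.ep (D.ek a) (D.ek b) D.es_lt_ep (D.ep_lt_ek a) (D.ep_lt_ek b)
    (D.ek_lt a) (D.ek_lt b) (fun h => hab (D.ek_inj h)) D.rho D.rho_add D.rho_inl D.rho_inr
    D.s D.p D.s_ne D.p_ne D.v_s D.v_p x x' hx hx' n m O A e e' he he' hv hv' h

/-- Lemma L in levels of type L -/
theorem levL [Nonempty J] (h2 : LevelStatement) (a b : St Q R) (hab : a ≠ b) (x x' : ℚ)
    (hx : x ≠ 0) (hx' : x' ≠ 0) (n m : J → ℕ) (O A : J → ℤ) (e e' : ℤ)
    (he : e = D.es ∨ e = D.ek a) (he' : e' = D.ep ∨ e' = D.ek b)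
    (hv : ∀ i, D.v i x = -e - D.v i (D.rho (toZ n)))
    (hv' : ∀ i, D.v i x' = -e' + D.v i (D.rho (toZ m)))
    (h : (D.rho A : ℚ)⁻¹ * (-D.s + x') = (D.rho O : ℚ)⁻¹ * (-D.p + x)) :
    e = D.es ∧ e' = D.ep ∧ A = O + toZ n ∧ n = m := by
  have hval : ∀ i (z : J → ℤ), padicValRat (D.pr i) (D.rho (-z) : ℚ) =
      -padicValRat (D.pr i) (D.rho z : ℚ) := by
    intro i z
    have := Fact.mk (D.prime i)
    rw [rho_neg, Units.val_inv_eq_inv_val, padicValRat.inv]
  refine h2 (fun i => D.pr i.swap) (fun i => D.prime i.swap) D.M D.es D.ep (D.ek a) (D.ek b)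
    D.es_lt_ep (D.ep_lt_ek a) (D.ep_lt_ek b)
    (D.ek_lt a) (D.ek_lt b) (fun h => hab (D.ek_inj h)) (fun z => D.rho (-z)) ?_ ?_ ?_
    D.s D.p D.s_ne D.p_ne (fun i => D.v_s i.swap) (fun i => D.v_p i.swap) x x' hx hx' n m O A e e'
    he he' ?_ ?_ ?_
  · intro z w
    show D.rho (-(z + w)) = D.rho (-z) * D.rho (-w)
    rw [neg_add, D.rho_add]
  · intro z i
    show padicValRat (D.pr (.inr i)) (D.rho (-z) : ℚ) = D.M * ell z i
    rw [D.rho_inr, ell_neg]
    ring
  · intro z i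
    show padicValRat (D.pr (.inl i)) (D.rho (-z) : ℚ) = -(D.M * ell z i)
    rw [D.rho_inl, ell_neg]
    ring
  · intro i
    show padicValRat (D.pr i.swap) x = -e + padicValRat (D.pr i.swap) (D.rho (-(toZ n)) : ℚ)
    rw [hval]
    exact hv i.swap
  · intro i
    show padicValRat (D.pr i.swap) x' = -e' - padicValRat (D.pr i.swap) (D.rho (-(toZ m)) : ℚ)
    rw [hval]
    have := hv' i.swap
    unfold Data.v at this
    rw [this]
    ring
  · show (D.rho (-O) : ℚ) * (-D.p + x) = (D.rho (-A) : ℚ) * (-D.s + x')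
    rw [rho_neg, rho_neg, Units.val_inv_eq_inv_val, Units.val_inv_eq_inv_val, h]

variable [DecidableEq J] [Nonempty J]

/-- left words at a state of type U -/
theorem shapeLU (h1 : NormStatement) (c0 : J → ℕ) (q : Q) (w : List (Tr J Q R)) (hw : OkW C w) :
    D.ze c0 true (.U q) w ≠ 0 ∧ ((∃ (n : J → ℕ) (a : St Q R) (d : J → ℤ) (w' : List (Tr J Q R)),
      OkW C w' ∧ w'.length < w.length ∧
      ((a = .q0 ∧ d = 0 ∧ C.qin = q) ∨ (∃ r, a = .L r ∧ d = C.del r ∧ C.dst r = q)) ∧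
      -D.s + D.ze c0 true a w' ≠ 0 ∧
      D.ze c0 true (.U q) w = (D.rho (toZ n) : ℚ) *
        (-D.s + ((D.rho d : ℚ) * (-D.s + D.ze c0 true a w'))⁻¹) ∧
      ∀ i, D.v i (D.ze c0 true (.U q) w) = -D.es + D.v i (D.rho (toZ n))) ∨
    ∃ n : J → ℕ, ∀ i, D.v i (D.ze c0 true (.U q) w) = -D.ek (.U q) + D.v i (D.rho (toZ n))) := by
  obtain ⟨hne, -, h⟩ := h1 C D c0 true (.U q) w hw
  refine ⟨hne, ?_⟩
  rcases h with h | h | h
  · left
    obtain ⟨n, τ, w', -, ht, hs, hok, hlen, hne', hze, hv⟩ := h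
    simp only [epsS, zpow_one, one_mul, St.ty, Data.out, Data.eo] at hne' hze hv
    cases τ with
    | tU q j => simp [Tr.trav] at ht
    | tL r j => simp [Tr.trav] at ht
    | aU j => simp [Tr.trav] at ht
    | aL j => simp [Tr.trav] at ht
    | gU r => simp [srcS, Tr.b] at hs
    | aG => simp [srcS, Tr.b] at hs
    | aH => simp [srcS, Tr.b] at hs
    | gL r =>
      simp only [srcS, Tr.b, cond_true, St.U.injEq] at hs
      simp only [tgtS, Tr.a, cond_true, sgnS, St.asc, Tr.z, Bool.false_eq_true, if_false,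
        neg_mul, one_mul] at hne' hze
      exact ⟨n, .L r, C.del r, w', hok, hlen, Or.inr ⟨r, rfl, rfl, hs⟩, hne', hze, hv⟩
    | g0 =>
      simp only [srcS, Tr.b, cond_true, St.U.injEq] at hs
      simp only [tgtS, Tr.a, cond_true, sgnS, St.asc, Tr.z, Bool.false_eq_true, if_false,
        neg_mul, one_mul] at hne' hze
      exact ⟨n, .q0, 0, w', hok, hlen, Or.inl ⟨rfl, rfl, hs⟩, hne', hze, hv⟩
  · obtain ⟨n, -, ha, -⟩ := h
    simp [aeS] at ha
  · right
    obtain ⟨n, hv⟩ := h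
    simp only [epsS, one_mul] at hv
    exact ⟨n, hv⟩

/-- right words at AU -/
theorem shapeRU (h1 : NormStatement) (c0 : J → ℕ) (w : List (Tr J Q R)) (hw : OkW C w) :
    D.ze c0 false .AU w ≠ 0 ∧ ((∃ (n : J → ℕ) (w' : List (Tr J Q R)),
      OkW C w' ∧ w'.length < w.length ∧ -D.p + D.ze c0 false .AL w' ≠ 0 ∧
      D.ze c0 false .AU w = (D.rho (toZ n) : ℚ)⁻¹ *
        (-D.p + (-D.p + D.ze c0 false .AL w')⁻¹) ∧
      ∀ i, D.v i (D.ze c0 false .AU w) = -D.ep - D.v i (D.rho (toZ n))) ∨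
    ∃ n : J → ℕ, ∀ i, D.v i (D.ze c0 false .AU w) = -D.ek .AU - D.v i (D.rho (toZ n))) := by
  obtain ⟨hne, -, h⟩ := h1 C D c0 false .AU w hw
  refine ⟨hne, ?_⟩
  rcases h with h | h | h
  · left
    obtain ⟨n, τ, w', -, ht, hs, hok, hlen, hne', hze, hv⟩ := h
    simp only [epsS, zpow_neg, zpow_one, neg_mul, one_mul, St.ty, Data.out, Data.eo,
      ← sub_eq_add_neg] at hne' hze hv
    cases τ with
    | tU q j => simp [Tr.trav] at ht
    | tL r j => simp [Tr.trav] at ht
    | aU j => simp [Tr.trav] at ht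
    | aL j => simp [Tr.trav] at ht
    | gU r => simp [srcS, Tr.a] at hs
    | gL r => simp [srcS, Tr.a] at hs
    | g0 => simp [srcS, Tr.a] at hs
    | aH => simp [srcS, Tr.a] at hs
    | aG =>
      simp only [tgtS, Tr.a, Tr.b, cond_false, sgnS, St.asc, Tr.z, Bool.true_eq_false, if_false,
        neg_mul, one_mul, rho_zero, Units.val_one] at hne' hze
      exact ⟨n, w', hok, hlen, hne', hze, hv⟩
  · obtain ⟨n, -, ha, -⟩ := h
    simp [aeS] at ha
  · right
    obtain ⟨n, hv⟩ := h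
    simp only [epsS, neg_mul, one_mul, ← sub_eq_add_neg] at hv
    exact ⟨n, hv⟩

/-- right words at AL -/
theorem shapeRL (h1 : NormStatement) (c0 : J → ℕ) (w : List (Tr J Q R)) (hw : OkW C w) :
    D.ze c0 false .AL w ≠ 0 ∧ ((∃ (n : J → ℕ),
      ((∃ (w' : List (Tr J Q R)), OkW C w' ∧ w'.length < w.length ∧
        -D.s + D.ze c0 false .AU w' ≠ 0 ∧
        D.ze c0 false .AL w = (D.rho (toZ n) : ℚ)⁻¹ *
        (-D.s + (-D.s + D.ze c0 false .AU w')⁻¹)) ∨
        D.ze c0 false .AL w = (D.rho (toZ n) : ℚ)⁻¹ * (-D.s)) ∧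
      ∀ i, D.v i (D.ze c0 false .AL w) = -D.es - D.v i (D.rho (toZ n))) ∨
    ∃ n : J → ℕ, ∀ i, D.v i (D.ze c0 false .AL w) = -D.ek .AL - D.v i (D.rho (toZ n))) := by
  obtain ⟨hne, -, h⟩ := h1 C D c0 false .AL w hw
  refine ⟨hne, ?_⟩
  rcases h with h | h | h
  · left
    obtain ⟨n, τ, w', -, ht, hs, hok, hlen, hne', hze, hv⟩ := h
    simp only [epsS, zpow_neg, zpow_one, neg_mul, one_mul, St.ty, Data.out, Data.eo,
      ← sub_eq_add_neg] at hne' hze hv
    cases τ with
    | tU q j => simp [Tr.trav] at ht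
    | tL r j => simp [Tr.trav] at ht
    | aU j => simp [Tr.trav] at ht
    | aL j => simp [Tr.trav] at ht
    | gU r => simp [srcS, Tr.a] at hs
    | gL r => simp [srcS, Tr.a] at hs
    | g0 => simp [srcS, Tr.a] at hs
    | aG => simp [srcS, Tr.a] at hs
    | aH =>
      simp only [tgtS, Tr.a, Tr.b, cond_false, sgnS, St.asc, Tr.z, Bool.true_eq_false, if_false,
        neg_mul, one_mul, rho_zero, Units.val_one] at hne' hze
      exact ⟨n, Or.inl ⟨w', hok, hlen, hne', hze⟩, hv⟩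
  · left
    obtain ⟨n, -, -, hze⟩ := h
    simp only [epsS, zpow_neg, zpow_one, Data.ec] at hze
    refine ⟨n, Or.inr hze, fun i => ?_⟩
    rw [hze]
    have := Fact.mk (D.prime i)
    unfold Data.v
    rw [padicValRat.mul (inv_ne_zero (Units.ne_zero _)) (neg_ne_zero.2 D.s_ne),
      padicValRat.inv, padicValRat.neg, D.v_s]
    ring
  · right
    obtain ⟨n, hv⟩ := h
    simp only [epsS, neg_mul, one_mul, ← sub_eq_add_neg] at hv
    exact ⟨n, hv⟩

/-- left words at the end state -/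
theorem shapeL0 (h1 : NormStatement) (c0 : J → ℕ) (w : List (Tr J Q R)) (hw : OkW C w) :
    D.ze c0 true .q0 w ≠ 0 ∧
      ((∀ i, D.v i (D.ze c0 true .q0 w) = -D.ep + D.v i (D.rho (toZ c0))) ∨
    ∃ n : J → ℕ, ∀ i, D.v i (D.ze c0 true .q0 w) = -D.ek .q0 + D.v i (D.rho (toZ n))) := by
  obtain ⟨hne, -, h⟩ := h1 C D c0 true .q0 w hw
  refine ⟨hne, ?_⟩
  rcases h with h | h | h
  · obtain ⟨n, τ, w', -, ht, hs, -⟩ := h
    cases τ with
    | tU q j => simp [Tr.trav] at ht
    | tL r j => simp [Tr.trav] at ht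
    | aU j => simp [Tr.trav] at ht
    | aL j => simp [Tr.trav] at ht
    | gU r => simp [srcS, Tr.b] at hs
    | gL r => simp [srcS, Tr.b] at hs
    | g0 => simp [srcS, Tr.b] at hs
    | aG => simp [srcS, Tr.b] at hs
    | aH => simp [srcS, Tr.b] at hs
  · left
    obtain ⟨n, hn, -, hze⟩ := h
    simp only [Allowed] at hn
    subst hn
    intro i
    have h0 : toZ (0 : J → ℕ) = 0 := by
      funext j
      simp [toZ]
    simp only [epsS, zpow_one, Data.ec, h0, rho_zero, Units.val_one, one_mul] at hze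
    rw [hze]
    have := Fact.mk (D.prime i)
    unfold Data.v
    rw [padicValRat.neg, padicValRat.mul D.p_ne (Units.ne_zero _), D.v_p]
  · right
    obtain ⟨n, hv⟩ := h
    simp only [epsS, one_mul] at hv
    exact ⟨n, hv⟩

/-- left words at a state (L, r) -/
theorem shapeLL (h1 : NormStatement) (c0 : J → ℕ) (r : R) (w : List (Tr J Q R)) (hw : OkW C w) :
    D.ze c0 true (.L r) w ≠ 0 ∧ ((∃ (n : J → ℕ) (w' : List (Tr J Q R)),
      OkW C w' ∧ w'.length < w.length ∧ (∀ j, C.zt r j → n j = 0) ∧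
      -D.p + D.ze c0 true (.U (C.src r)) w' ≠ 0 ∧
      D.ze c0 true (.L r) w = (D.rho (toZ n) : ℚ) *
        (-D.p + (-D.p + D.ze c0 true (.U (C.src r)) w')⁻¹) ∧
      ∀ i, D.v i (D.ze c0 true (.L r) w) = -D.ep + D.v i (D.rho (toZ n))) ∨
    ∃ n : J → ℕ, ∀ i, D.v i (D.ze c0 true (.L r) w) = -D.ek (.L r) + D.v i (D.rho (toZ n))) := by
  obtain ⟨hne, -, h⟩ := h1 C D c0 true (.L r) w hw
  refine ⟨hne, ?_⟩
  rcases h with h | h | h
  · left
    obtain ⟨n, τ, w', hall, ht, hs, hok, hlen, hne', hze, hv⟩ := h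
    simp only [epsS, zpow_one, one_mul, St.ty, Data.out, Data.eo] at hne' hze hv
    simp only [Allowed] at hall
    cases τ with
    | tU q j => simp [Tr.trav] at ht
    | tL r j => simp [Tr.trav] at ht
    | aU j => simp [Tr.trav] at ht
    | aL j => simp [Tr.trav] at ht
    | gL r => simp [srcS, Tr.b] at hs
    | g0 => simp [srcS, Tr.b] at hs
    | aG => simp [srcS, Tr.b] at hs
    | aH => simp [srcS, Tr.b] at hs
    | gU r' =>
      simp only [srcS, Tr.b, cond_true, St.L.injEq] at hs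
      subst hs
      simp only [tgtS, Tr.a, cond_true, sgnS, St.asc, Tr.z, Bool.false_eq_true, if_false,
        neg_mul, one_mul, rho_zero, Units.val_one] at hne' hze
      exact ⟨n, w', hok, hlen, hall, hne', hze, hv⟩
  · obtain ⟨n, -, ha, -⟩ := h
    simp [aeS] at ha
  · right
    obtain ⟨n, hv⟩ := h
    simp only [epsS, one_mul] at hv
    exact ⟨n, hv⟩

/-- the step from a level of type U to the next level, in numbers -/
theorem stepU {O A n rd s p z z' : ℚ} (hO : O ≠ 0) (hn : n ≠ 0) (hrd : rd ≠ 0)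
    (hz : -s + z ≠ 0) (hz' : -p + z' ≠ 0) (hA : A = O * n)
    (h : O * (-p + n * (-s + (rd * (-s + z))⁻¹)) = A * (-s + n⁻¹ * (-p + (-p + z')⁻¹))) :
    (A * rd⁻¹)⁻¹ * (-s + z) = O⁻¹ * (-p + z') := by
  subst hA
  set u := -s + z with hu
  set u' := -p + z' with hu'
  have h1 : O * n * (rd * u)⁻¹ = O * u'⁻¹ := by
    have h2 : O * n * (-s + n⁻¹ * (-p + u'⁻¹)) = O * n * (-s) + O * (-p + u'⁻¹) := by
      field_simp
    rw [h2] at h
    linear_combination h
  have h3 : n * u' = rd * u := by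
    field_simp at h1
    linear_combination h1
  field_simp
  linear_combination -h3

/-- the step from a level of type L to the next level, in numbers -/
theorem stepL {O A n s p z z' : ℚ} (hO : O ≠ 0) (hn : n ≠ 0) (hA : A = O * n)
    (hz : -p + z ≠ 0) (hz' : -s + z' ≠ 0)
    (h : A⁻¹ * (-s + n * (-p + (-p + z)⁻¹)) = O⁻¹ * (-p + n⁻¹ * (-s + (-s + z')⁻¹))) :
    O * (-p + z) = A * (-s + z') := by
  subst hA
  set u := -p + z with hu
  set u' := -s + z' with hu'
  have h1 : O⁻¹ * u⁻¹ = O⁻¹ * n⁻¹ * u'⁻¹ := by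
    have h2 : (O * n)⁻¹ * (-s + n * (-p + u⁻¹)) = (O * n)⁻¹ * (-s) + O⁻¹ * (-p + u⁻¹) := by
      field_simp
    rw [h2] at h
    rw [mul_inv] at h
    linear_combination h
  field_simp at h1
  linear_combination -O * h1

theorem stepL' {O A n s p z : ℚ} (hO : O ≠ 0) (hn : n ≠ 0) (hA : A = O * n)
    (hz : -p + z ≠ 0)
    (h : A⁻¹ * (-s + n * (-p + (-p + z)⁻¹)) = O⁻¹ * (-p + n⁻¹ * (-s))) : False := by
  subst hA
  set u := -p + z with hu
  have h1 : O⁻¹ * u⁻¹ = 0 := by
    have h2 : (O * n)⁻¹ * (-s + n * (-p + u⁻¹)) = (O * n)⁻¹ * (-s) + O⁻¹ * (-p + u⁻¹) := by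
      field_simp
    rw [h2] at h
    rw [mul_inv] at h
    linear_combination h
  exact mul_ne_zero (inv_ne_zero hO) (inv_ne_zero hz) h1

theorem main (h1 : NormStatement) (h2 : LevelStatement) (c0 : J → ℕ) :
    ∀ (N : ℕ) (wL wR : List (Tr J Q R)), wL.length + wR.length < N → OkW C wL → OkW C wR →
      (∀ (q : Q) (O A : J → ℤ), D.HU c0 q O A wL wR →
        ∃ n : J → ℕ, A = O + toZ n ∧ C.Reach (C.qin, c0) (q, n)) ∧
      (∀ O A : J → ℤ, D.HL c0 .q0 O A wL wR → A = O + toZ c0) ∧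
      (∀ (r : R) (O A : J → ℤ), D.HL c0 (.L r) O A wL wR →
        ∃ n : J → ℕ, A = O + toZ n ∧ (∀ j, C.zt r j → n j = 0) ∧
          C.Reach (C.qin, c0) (C.src r, n)) := by
  intro N
  induction N with
  | zero => intro wL wR h; omega
  | succ N ih =>
    intro wL wR hlen hL hR
    refine ⟨?_, ?_, ?_⟩
    · -- a level of type U
      intro q O A h
      obtain ⟨hx, hl⟩ := shapeLU D h1 c0 q wL hL
      obtain ⟨hx', hr⟩ := shapeRU D h1 c0 wR hR
      unfold Data.HU at h
      have hne : (St.U q : St Q R) ≠ .AU := by simp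
      rcases hl with ⟨n, a, d, wL', hokL, hlenL, hcase, hz, hze, hv⟩ | ⟨n, hv⟩
      · rcases hr with ⟨m, wR', hokR, hlenR, hz', hze', hv'⟩ | ⟨m, hv'⟩
        · obtain ⟨-, -, hA, hnm⟩ := levU D h2 (.U q) .AU hne _ _ hx hx' n m O A D.es D.ep
            (Or.inl rfl) (Or.inl rfl) hv hv' h
          subst hnm
          refine ⟨n, hA, ?_⟩
          rw [hze, hze'] at h
          have hAq : (D.rho A : ℚ) = D.rho O * D.rho (toZ n) := by
            rw [hA, D.rho_add, Units.val_mul]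
          have hst := stepU (Units.ne_zero (D.rho O)) (Units.ne_zero (D.rho (toZ n)))
            (Units.ne_zero (D.rho d)) hz hz' hAq h
          have hHL : D.HL c0 a O (A - d) wL' wR' := by
            unfold Data.HL
            rw [rho_sub, Units.val_mul, Units.val_inv_eq_inv_val]
            exact hst
          obtain ⟨-, ih0, ihL⟩ := ih wL' wR' (by omega) hokL hokR
          rcases hcase with ⟨rfl, rfl, hq⟩ | ⟨r, rfl, rfl, hq⟩
          · have h3 := ih0 O (A - 0) hHL
            rw [sub_zero, hA] at h3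
            have h4 : n = c0 := toZ_inj (add_left_cancel h3)
            subst h4 hq
            exact Relation.ReflTransGen.refl
          · obtain ⟨n', h3, hzt, hre⟩ := ihL r O (A - C.del r) hHL
            refine Relation.ReflTransGen.tail hre ⟨r, rfl, hq, hzt, fun j => ?_⟩
            have h4 := congrFun h3 j
            rw [hA] at h4
            simp only [Pi.sub_apply, Pi.add_apply, toZ] at h4
            show (n j : ℤ) = n' j + C.del r j
            linarith
        · obtain ⟨-, he', -⟩ := levU D h2 (.U q) .AU hne _ _ hx hx' n m O A D.es (D.ek .AU)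
            (Or.inl rfl) (Or.inr rfl) hv hv' h
          have := D.ep_lt_ek .AU
          omega
      · rcases hr with ⟨m, wR', hokR, hlenR, hz', hze', hv'⟩ | ⟨m, hv'⟩
        · obtain ⟨he, -⟩ := levU D h2 (.U q) .AU hne _ _ hx hx' n m O A (D.ek (.U q)) D.ep
            (Or.inr rfl) (Or.inl rfl) hv hv' h
          have := D.ep_lt_ek (.U q)
          have := D.es_lt_ep
          omega
        · obtain ⟨he, -⟩ := levU D h2 (.U q) .AU hne _ _ hx hx' n m O A (D.ek (.U q))
            (D.ek .AU) (Or.inr rfl) (Or.inr rfl) hv hv' h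
          have := D.ep_lt_ek (.U q)
          have := D.es_lt_ep
          omega
    · -- the end level
      intro O A h
      obtain ⟨hx', hl⟩ := shapeL0 D h1 c0 wL hL
      obtain ⟨hx, hr⟩ := shapeRL D h1 c0 wR hR
      unfold Data.HL at h
      have hne : (St.AL : St Q R) ≠ .q0 := by simp
      have he1 : ∃ (n : J → ℕ) (e : ℤ), (e = D.es ∨ e = D.ek .AL) ∧
          ∀ i, D.v i (D.ze c0 false .AL wR) = -e - D.v i (D.rho (toZ n)) := by
        rcases hr with ⟨n, -, hv⟩ | ⟨n, hv⟩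
        · exact ⟨n, _, Or.inl rfl, hv⟩
        · exact ⟨n, _, Or.inr rfl, hv⟩
      obtain ⟨n, e, he, hv⟩ := he1
      rcases hl with hv' | ⟨m, hv'⟩
      · obtain ⟨-, -, hA, hnm⟩ := levL D h2 .AL .q0 hne _ _ hx hx' n c0 O A e D.ep
          he (Or.inl rfl) hv hv' h
        rw [hA, hnm]
      · obtain ⟨-, he', -⟩ := levL D h2 .AL .q0 hne _ _ hx hx' n m O A e (D.ek .q0)
          he (Or.inr rfl) hv hv' h
        have := D.ep_lt_ek .q0
        omega
    · -- a level of type L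
      intro r O A h
      obtain ⟨hx', hl⟩ := shapeLL D h1 c0 r wL hL
      obtain ⟨hx, hr⟩ := shapeRL D h1 c0 wR hR
      unfold Data.HL at h
      have hne : (St.AL : St Q R) ≠ .L r := by simp
      rcases hl with ⟨m, wL', hokL, hlenL, hzt, hz, hze, hv'⟩ | ⟨m, hv'⟩
      · rcases hr with ⟨n, hcase, hv⟩ | ⟨n, hv⟩
        · obtain ⟨-, -, hA, hnm⟩ := levL D h2 .AL (.L r) hne _ _ hx hx' n m O A D.es D.ep
            (Or.inl rfl) (Or.inl rfl) hv hv' h
          subst hnm
          have hAq : (D.rho A : ℚ) = D.rho O * D.rho (toZ n) := by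
            rw [hA, D.rho_add, Units.val_mul]
          rcases hcase with ⟨wR', hokR, hlenR, hz', hze'⟩ | hze'
          · rw [hze, hze'] at h
            have hst := stepL (Units.ne_zero (D.rho O)) (Units.ne_zero (D.rho (toZ n))) hAq
              hz hz' h
            obtain ⟨n'', h3, hre⟩ := (ih wL' wR' (by omega) hokL hokR).1 (C.src r) O A hst
            have h4 : n'' = n := by
              rw [hA] at h3
              exact (toZ_inj (add_left_cancel h3)).symm
            subst h4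
            exact ⟨n'', hA, hzt, hre⟩
          · rw [hze, hze'] at h
            exact (stepL' (Units.ne_zero (D.rho O)) (Units.ne_zero (D.rho (toZ n))) hAq hz h).elim
        · obtain ⟨he, -⟩ := levL D h2 .AL (.L r) hne _ _ hx hx' n m O A (D.ek .AL) D.ep
            (Or.inr rfl) (Or.inl rfl) hv hv' h
          have := D.ep_lt_ek .AL
          have := D.es_lt_ep
          omega
      · have he1 : ∃ (n : J → ℕ) (e : ℤ), (e = D.es ∨ e = D.ek .AL) ∧
            ∀ i, D.v i (D.ze c0 false .AL wR) = -e - D.v i (D.rho (toZ n)) := by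
          rcases hr with ⟨n, -, hv⟩ | ⟨n, hv⟩
          · exact ⟨n, _, Or.inl rfl, hv⟩
          · exact ⟨n, _, Or.inr rfl, hv⟩
        obtain ⟨n, e, he, hv⟩ := he1
        obtain ⟨-, he', -⟩ := levL D h2 .AL (.L r) hne _ _ hx hx' n m O A e (D.ek (.L r))
          he (Or.inr rfl) hv hv' h
        have := D.ep_lt_ek (.L r)
        omega

/-- DEC -/
theorem dec (h1 : NormStatement) (h2 : LevelStatement) : DecStatement := by
  intro J Q R _ _ _ C D c0 wL wR hL hR q O A h
  exact (main D h1 h2 c0 (wL.length + wR.length + 1) wL wR (by omega) hL hR).1 q O A h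

end Pool.Agent.Lib.MP_571595_lc.MORT.H82
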